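import Mathlib
import Pool.Agent.N658.SP.Oct

set_option autoImplicit false

namespace Pool.Agent.N7.OCT.Nrm

open scoped Pointwise

open Pool.Agent.N658.SP.Oct

universe u

variable {I : Type u}

theorem val_nonneg {r : ℝ} (hr : 0 ≤ r) (y : I → ℝ) : ∀ l : List I, 0 ≤ val r y l
  | [] => le_refl _
  | _ :: l => add_nonneg (abs_nonneg _) (mul_nonneg hr (val_nonneg hr y l))

theorem val_le {r : ℝ} (hr : 0 ≤ r) (hr1 : r < 1) {y : I → ℝ} {C : ℝ} (hC : ∀ a, |y a| ≤ C)
    (hC0 : 0 ≤ C) : ∀ l : List I, val r y l ≤ C / (1 - r)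
  | [] => div_nonneg hC0 (by linarith)
  | a :: l => by
    have h1 := val_le hr hr1 hC hC0 l
    have h2 : val r y (a :: l) = |y a| + r * val r y l := rfl
    have h3 : (1 - r) ≠ 0 := by
      have : 0 < 1 - r := by linarith
      exact this.ne'
    have h4 : C / (1 - r) = C + r * (C / (1 - r)) := by
      field_simp
      ring
    rw [h2, h4]
    exact add_le_add (hC a) (mul_le_mul_of_nonneg_left h1 hr)

theorem val_add {r : ℝ} (hr : 0 ≤ r) (x y : I → ℝ) :
    ∀ l : List I, val r (x + y) l ≤ val r x l + val r y l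
  | [] => by simp [val]
  | a :: l => by
    have h1 := val_add hr x y l
    have h2 : val r (x + y) (a :: l) = |x a + y a| + r * val r (x + y) l := rfl
    have h3 : val r x (a :: l) = |x a| + r * val r x l := rfl
    have h4 : val r y (a :: l) = |y a| + r * val r y l := rfl
    rw [h2, h3, h4]
    have h5 := abs_add_le (x a) (y a)
    have h6 := mul_le_mul_of_nonneg_left h1 hr
    linarith

theorem val_smul (r c : ℝ) (y : I → ℝ) : ∀ l : List I, val r (c • y) l = |c| * val r y l
  | [] => by simp [val]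
  | a :: l => by
    have h1 := val_smul r c y l
    have h2 : val r (c • y) (a :: l) = |c * y a| + r * val r (c • y) l := rfl
    have h4 : val r y (a :: l) = |y a| + r * val r y l := rfl
    rw [h2, h4, h1, abs_mul]
    ring

theorem val_congr (r : ℝ) {x y : I → ℝ} :
    ∀ l : List I, (∀ b ∈ l, x b = y b) → val r x l = val r y l
  | [], _ => rfl
  | a :: l, h => by
    have h1 := val_congr r (x := x) (y := y) l fun b hb => h b (List.mem_cons_of_mem _ hb)
    have h2 : val r x (a :: l) = |x a| + r * val r x l := rfl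
    have h4 : val r y (a :: l) = |y a| + r * val r y l := rfl
    rw [h2, h4, h1, h a List.mem_cons_self]

theorem exists_tail [LinearOrder I] {r : ℝ} (hr : 0 ≤ r) (hr1 : r < 1) {y : I → ℝ} {a : I}
    (hy : ∀ b, a ≤ b → y b = 0) : ∀ l : List I, l.Pairwise (fun a b => b < a) →
    ∃ l' : List I, l'.Pairwise (fun a b => b < a) ∧ (∀ b ∈ l', b < a) ∧ val r y l ≤ val r y l'
  | [], _ => ⟨[], List.Pairwise.nil, by simp, le_refl _⟩
  | b :: l, h => by
    rcases lt_or_ge b a with hb | hb
    · refine ⟨b :: l, h, fun c hc => ?_, le_refl _⟩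
      rcases List.mem_cons.1 hc with h1 | h1
      · rw [h1]; exact hb
      · exact ((List.pairwise_cons.1 h).1 c h1).trans hb
    · obtain ⟨l', h1, h2, h3⟩ := exists_tail hr hr1 hy l (List.pairwise_cons.1 h).2
      refine ⟨l', h1, h2, ?_⟩
      have h4 : val r y (b :: l) = |y b| + r * val r y l := rfl
      rw [h4, hy b hb, abs_zero, zero_add]
      have h5 := val_nonneg hr y l
      nlinarith

theorem bdd [LinearOrder I] {r : ℝ} (hr : 0 ≤ r) (hr1 : r < 1) {y : I → ℝ} {C : ℝ}
    (hC : ∀ a, |y a| ≤ C) (hC0 : 0 ≤ C) :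
    BddAbove {v : ℝ | ∃ l : List I, l.Pairwise (fun a b => b < a) ∧ v = val r y l} := by
  refine ⟨C / (1 - r), ?_⟩
  rintro v ⟨l, _, rfl⟩
  exact val_le hr hr1 hC hC0 l

theorem nonem [LinearOrder I] (r : ℝ) (y : I → ℝ) :
    {v : ℝ | ∃ l : List I, l.Pairwise (fun a b => b < a) ∧ v = val r y l}.Nonempty :=
  ⟨0, [], List.Pairwise.nil, rfl⟩

/-- bounds with an arbitrary (possibly negative) constant on an arbitrary (possibly empty) type -/
theorem bdd' [LinearOrder I] {r : ℝ} (hr : 0 ≤ r) (hr1 : r < 1) {y : I → ℝ} {C : ℝ}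
    (hC : ∀ a, |y a| ≤ C) :
    BddAbove {v : ℝ | ∃ l : List I, l.Pairwise (fun a b => b < a) ∧ v = val r y l} :=
  bdd hr hr1 (C := |C|) (fun a => (hC a).trans (le_abs_self C)) (abs_nonneg C)

theorem stmNrm : StmNrm.{u} := by
  intro I _ r hr hr1
  refine ⟨fun y C hC hC0 => ?_, fun x y C hx hy => ?_, fun c y => ?_, fun y C hC a s hy => ?_⟩
  · have hb := bdd hr hr1 hC hC0
    refine ⟨hb, ?_, ?_, fun a => ?_⟩
    · refine csSup_le (nonem r y) ?_
      rintro v ⟨l, _, rfl⟩
      exact val_le hr hr1 hC hC0 l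
    · exact le_csSup hb ⟨[], List.Pairwise.nil, rfl⟩
    · refine le_csSup hb ⟨[a], List.pairwise_singleton _ _, ?_⟩
      simp [val]
  · refine csSup_le (nonem r _) ?_
    rintro v ⟨l, hl, rfl⟩
    refine (val_add hr x y l).trans (add_le_add ?_ ?_)
    · exact le_csSup (bdd' hr hr1 hx) ⟨l, hl, rfl⟩
    · exact le_csSup (bdd' hr hr1 hy) ⟨l, hl, rfl⟩
  · have h1 : {v : ℝ | ∃ l : List I, l.Pairwise (fun a b => b < a) ∧ v = val r (c • y) l} =
        |c| • {v : ℝ | ∃ l : List I, l.Pairwise (fun a b => b < a) ∧ v = val r y l} := by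
      ext v
      rw [Set.mem_smul_set]
      constructor
      · rintro ⟨l, hl, rfl⟩
        exact ⟨val r y l, ⟨l, hl, rfl⟩, by rw [val_smul, smul_eq_mul]⟩
      · rintro ⟨_, ⟨l, hl, rfl⟩, rfl⟩
        exact ⟨l, hl, by rw [val_smul, smul_eq_mul]⟩
    unfold nrm
    rw [h1, Real.sSup_smul_of_nonneg (abs_nonneg c), smul_eq_mul]
  · have hb : BddAbove {v : ℝ | ∃ l : List I, l.Pairwise (fun a b => b < a) ∧
        v = val r (Pi.single a s + y) l} := by
      refine bdd' hr hr1 (C := |s| + |C|) fun b => ?_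
      have h1 : |(Pi.single a s : I → ℝ) b| ≤ |s| := by
        by_cases hba : b = a
        · subst hba; simp
        · rw [Pi.single_eq_of_ne hba]; simp
      have h2 := (hC b).trans (le_abs_self C)
      exact (abs_add_le _ _).trans (add_le_add h1 h2)
    have key : ∀ l : List I, l.Pairwise (fun a b => b < a) →
        |s| + r * val r y l ≤ nrm r (Pi.single a s + y) := by
      intro l hl
      obtain ⟨l', h1, h2, h3⟩ := exists_tail hr hr1 hy l hl
      have h4 : val r (Pi.single a s + y) (a :: l') = |s| + r * val r y l' := by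
        have h5 : val r (Pi.single a s + y) (a :: l') =
          |(Pi.single a s + y : I → ℝ) a| + r * val r (Pi.single a s + y) l' := rfl
        rw [h5, Pi.add_apply, Pi.single_eq_same, hy a le_rfl, add_zero]
        congr 2
        refine val_congr r l' fun b hb' => ?_
        rw [Pi.add_apply, Pi.single_eq_of_ne (h2 b hb').ne, zero_add]
      calc |s| + r * val r y l ≤ |s| + r * val r y l' :=
            add_le_add le_rfl (mul_le_mul_of_nonneg_left h3 hr)
        _ = val r (Pi.single a s + y) (a :: l') := h4.symm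
        _ ≤ nrm r (Pi.single a s + y) :=
            le_csSup hb ⟨a :: l', List.pairwise_cons.2 ⟨h2, h1⟩, rfl⟩
    rcases hr.eq_or_lt with h0 | h0
    · have := key [] List.Pairwise.nil
      rw [← h0] at this ⊢
      simpa using this
    · have h1 : nrm r y ≤ (nrm r (Pi.single a s + y) - |s|) / r := by
        refine csSup_le (nonem r y) ?_
        rintro v ⟨l, hl, rfl⟩
        rw [le_div_iff₀ h0]
        have := key l hl
        linarith
      rw [le_div_iff₀ h0] at h1
      linarith

end Pool.Agent.N7.OCT.Nrm
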